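import Mathlib
import Pool.Agent.Lib.MP_e5080e_gt.Page
import Pool.Agent.Lib.MP_e5080e_gt.CollapseG

/-!
# Collapse of the spectral sequence of the arc complex (MP_e5080e_gt, Q1)
-/

namespace Pool.Agent.Results.MP_e5080e_gt.Collapse

open ArcC ArcC.Page

/-- **Collapse of the spectral sequence at `E^1`**: for every bordered surface `F`, `E^1_{u,v} = 0`
whenever `v` is not the top value and `u + v ≠ 0`. -/
theorem result (F : Surf) (u v : ℤ) (hv : ¬ IsTop F v) (huv : u + v ≠ 0) :
    Subsingleton (E1 F u v) :=
  collapse F u v hv huv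

end Pool.Agent.Results.MP_e5080e_gt.Collapse
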